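import Pool.Agent.Lib.MP_4a4360_co.Example

/-!
A certificate checker: short walks from a given vertex which have the same value of a cocycle are
homotopic.
-/

namespace Pool.Agent.Lib.MP_4a4360_co

namespace Example

open Triangulation

/-- modulus -/
def K : ℕ := 2003

/-- value after one more dart -/
def stepId (w : ℕ → ℕ) (i d : ℕ) : ℕ := (i + w d) % K

/-- The table `w` is a cocycle. -/
def wOK (w : ℕ → ℕ) : Bool :=
  (List.range 66).all fun d =>
    Nat.beq ((w d + w (revN d)) % K) 0 &&
    Nat.beq ((w (revN (nextN (nextN d))) + w (revN (nextN d))) % K) (w d % K) &&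
    Nat.beq ((w (nextN (revN d)) + w (nextN (nextN (revN d)))) % K) (w d % K) &&
    Nat.beq ((w d + w (nextN d) + w (nextN (nextN d))) % K) 0

/-- fields of a certificate entry -/
def eD (e : ℕ) : ℕ := e % 128
def eI (e : ℕ) : ℕ := e / 128 % 4096
def eR (e : ℕ) : ℕ := e / 524288

/-- validity of an entry: `as` assigned nodes, `vt` end vertices, `kn` known facts -/
def good (w : ℕ → ℕ) (as vt kn i d r : ℕ) : Bool :=
  Nat.blt d 66 &&
  match r with
  | 0 => Nat.testBit vt (16 * i + vN d) && !(Nat.testBit as (stepId w i d))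
  | 1 => Nat.blt i K && Nat.testBit kn (128 * stepId w i d + revN d)
  | 2 => Nat.testBit kn (128 * i + revN (nextN (nextN d))) &&
      Nat.testBit kn (128 * stepId w i (revN (nextN (nextN d))) + revN (nextN d))
  | _ => Nat.testBit kn (128 * i + nextN (revN d)) &&
      Nat.testBit kn (128 * stepId w i (nextN (revN d)) + nextN (nextN (revN d)))

/-- set a bit -/
def setBit (n i : ℕ) : ℕ := n ||| (1 <<< i)

/-- run the certificate, then a final test -/
def run (w : ℕ → ℕ) (fin : ℕ → ℕ → Bool) : List ℕ → ℕ → ℕ → ℕ → Bool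
  | [], _, vt, kn => fin vt kn
  | e :: es, as, vt, kn =>
    good w as vt kn (eI e) (eD e) (eR e) &&
    match eR e with
    | 0 => run w fin es (setBit as (stepId w (eI e) (eD e)))
        (setBit vt (16 * stepId w (eI e) (eD e) + vN (revN (eD e))))
        (setBit kn (128 * eI e + eD e))
    | _ => run w fin es as vt (setBit kn (128 * eI e + eD e))

/-- every dart leaving the node `i` is a known fact with target satisfying `tgt` -/
def covNode (w : ℕ → ℕ) (vt kn : ℕ) (tgt : ℕ → Bool) (i : ℕ) : Bool :=
  (List.range 66).all fun d =>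
    !(Nat.testBit vt (16 * i + vN d)) || (Nat.testBit kn (128 * i + d) && tgt (stepId w i d))

/-- the final test -/
def finTest (w : ℕ → ℕ) (S1 S2 : List ℕ) (vt kn : ℕ) : Bool :=
  covNode w vt kn (fun c => S1.contains c) 0 &&
  S1.all (covNode w vt kn fun c => S2.contains c) &&
  S2.all (covNode w vt kn fun _ => true)

/-- the complete check at the vertex number `a` -/
def check (w : ℕ → ℕ) (a : ℕ) (cert S1 S2 : List ℕ) : Bool :=
  wOK w && run w (finTest w S1 S2) cert 1 (setBit 0 a) 0

/-! ### table facts -/

theorem vN_lt : ∀ d : Fin 66, vN d < 9 := by decide +kernel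
theorem vN_rev_prev : ∀ d : Fin 66, vN (revN (nextN (nextN d))) = vN d := by decide +kernel
theorem vN_rev_rev_next : ∀ d : Fin 66, vN (revN (revN (nextN d))) = vN (revN d) := by
  decide +kernel
theorem vN_next_rev : ∀ d : Fin 66, vN (nextN (revN d)) = vN d := by decide +kernel
theorem vN_rev_next_next_rev : ∀ d : Fin 66, vN (revN (nextN (nextN (revN d)))) = vN (revN d) := by
  decide +kernel





/-- a dart with the given tail -/
def firstN (v : ℕ) : ℕ := (0x1f3a70d8e0808080 >>> (7 * v)) % 128

theorem firstN_lt : ∀ d : Fin 66, firstN (vN d) < 66 := by decide +kernel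

theorem first_spec : ∀ d : Fin 66, ∃ k : Fin 12,
    (fun x : Fin 66 => rev (next.symm x))^[k] ⟨firstN (vN d), firstN_lt d⟩ = d := by
  decide +kernel

theorem tail_iter (x : Fin 66) (k : ℕ) :
    T.tail ((fun x : Fin 66 => rev (next.symm x))^[k] x) = T.tail x := by
  induction k with
  | zero => rfl
  | succ k ih =>
    rw [Function.iterate_succ_apply', ← ih]
    exact T.tail_rot _

theorem tail_eq_of_vN {d e : Fin 66} (h : vN d = vN e) : T.tail d = T.tail e := by
  obtain ⟨k, hk⟩ := first_spec d
  obtain ⟨l, hl⟩ := first_spec e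
  rw [← hk, ← hl, tail_iter, tail_iter]
  simp only [h]

theorem testBit_setBit (n i j : ℕ) : Nat.testBit (setBit n i) j = (Nat.testBit n j || decide (i = j)) := by
  unfold setBit
  rw [Nat.testBit_or, Nat.shiftLeft_eq, one_mul, Nat.testBit_two_pow]

/-! ### soundness -/

/-- The invariant of the run. -/
def Inv (A : T.Vertex) (w : ℕ → ℕ) (as vt kn : ℕ) : Prop :=
  ∃ rep : ℕ → List (Fin 66), rep 0 = [] ∧ Nat.testBit as 0 = true ∧
    (∀ d : Fin 66, T.tail d = A → Nat.testBit vt (vN d) = true) ∧
    (∀ i (d : Fin 66), Nat.testBit vt (16 * i + vN d) = true →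
      Nat.testBit as i = true ∧ T.IsWalk A (T.tail d) (rep i)) ∧
    (∀ i (d : Fin 66), Nat.testBit kn (128 * i + d) = true →
      Nat.testBit as i = true ∧ Nat.testBit as (stepId w i d) = true ∧
      Nat.testBit vt (16 * i + vN d) = true ∧
      Nat.testBit vt (16 * stepId w i d + vN (revN d)) = true ∧
      T.Sim A (T.head d) (rep i ++ [d]) (rep (stepId w i d)))

theorem key_inj {i j : ℕ} {d e : Fin 66} (h : 128 * i + (d : ℕ) = 128 * j + (e : ℕ)) :
    i = j ∧ d = e := by
  have h1 := d.2
  have h2 := e.2
  have : i = j := by omega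
  subst this
  exact ⟨rfl, Fin.ext (by omega)⟩

theorem key_inj' {i j : ℕ} {d e : Fin 66}
    (h : 16 * i + vN d = 16 * j + vN e) : i = j ∧ vN d = vN e := by
  have h1 := vN_lt d
  have h2 := vN_lt e
  have : i = j := by omega
  subst this
  exact ⟨rfl, by omega⟩

/-- adding a derived fact keeps the invariant -/
theorem inv_add {A : T.Vertex} {w : ℕ → ℕ} {as vt kn : ℕ} {rep : ℕ → List (Fin 66)}
    (h0 : rep 0 = []) (ha0 : Nat.testBit as 0 = true)
    (hb : ∀ d : Fin 66, T.tail d = A → Nat.testBit vt (vN d) = true)
    (hv : ∀ i (d : Fin 66), Nat.testBit vt (16 * i + vN d) = true →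
      Nat.testBit as i = true ∧ T.IsWalk A (T.tail d) (rep i))
    (hk : ∀ i (d : Fin 66), Nat.testBit kn (128 * i + d) = true →
      Nat.testBit as i = true ∧ Nat.testBit as (stepId w i d) = true ∧
      Nat.testBit vt (16 * i + vN d) = true ∧
      Nat.testBit vt (16 * stepId w i d + vN (revN d)) = true ∧
      T.Sim A (T.head d) (rep i ++ [d]) (rep (stepId w i d)))
    (i : ℕ) (d : Fin 66)
    (hnew : Nat.testBit as i = true ∧ Nat.testBit as (stepId w i d) = true ∧
      Nat.testBit vt (16 * i + vN d) = true ∧
      Nat.testBit vt (16 * stepId w i d + vN (revN d)) = true ∧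
      T.Sim A (T.head d) (rep i ++ [d]) (rep (stepId w i d))) :
    Inv A w as vt (setBit kn (128 * i + d)) := by
  refine ⟨rep, h0, ha0, hb, hv, ?_⟩
  intro j e hje
  rw [testBit_setBit, Bool.or_eq_true, decide_eq_true_eq] at hje
  rcases hje with hje | hje
  · exact hk j e hje
  · obtain ⟨rfl, rfl⟩ := key_inj hje
    exact hnew

theorem wOK_spec {w : ℕ → ℕ} (h : wOK w = true) (d : Fin 66) :
    (w d + w (revN d)) % K = 0 ∧
    (w (revN (nextN (nextN d))) + w (revN (nextN d))) % K = w d % K ∧
    (w (nextN (revN d)) + w (nextN (nextN (revN d)))) % K = w d % K ∧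
    (w d + w (nextN d) + w (nextN (nextN d))) % K = 0 := by
  unfold wOK at h
  rw [List.all_eq_true] at h
  have := h d (List.mem_range.2 d.2)
  simp only [Bool.and_eq_true, Nat.beq_eq] at this
  exact ⟨this.1.1.1, this.1.1.2, this.1.2, this.2⟩

theorem stepId_stepId {w : ℕ → ℕ} {i a b c : ℕ} (h : (w a + w b) % K = w c % K) :
    stepId w (stepId w i a) b = stepId w i c := by
  unfold stepId
  rw [Nat.mod_add_mod, add_assoc, Nat.add_mod, h, ← Nat.add_mod]

theorem stepId_back {w : ℕ → ℕ} {i a b : ℕ} (hi : i < K) (h : (w a + w b) % K = 0) :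
    stepId w (stepId w i a) b = i := by
  unfold stepId
  rw [Nat.mod_add_mod, add_assoc, Nat.add_mod, h, add_zero, Nat.mod_mod, Nat.mod_eq_of_lt hi]

theorem run_sound {A : T.Vertex} {w : ℕ → ℕ} (hw : wOK w = true) {fin : ℕ → ℕ → Bool} :
    ∀ (cert : List ℕ) (as vt kn : ℕ), Inv A w as vt kn → run w fin cert as vt kn = true →
      ∃ as' vt' kn', Inv A w as' vt' kn' ∧ fin vt' kn' = true := by
  intro cert
  induction cert with
  | nil =>
    intro as vt kn hinv h
    exact ⟨as, vt, kn, hinv, h⟩
  | cons e es ih =>
    intro as vt kn hinv h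
    unfold run at h
    rw [Bool.and_eq_true] at h
    obtain ⟨hg, hr⟩ := h
    generalize hi : eI e = i at hg hr
    generalize hd : eD e = d' at hg hr
    generalize hrr : eR e = r at hg hr
    unfold good at hg
    rw [Bool.and_eq_true] at hg
    obtain ⟨hd66, hg⟩ := hg
    have hd66' : d' < 66 := by simpa [Nat.blt] using hd66
    obtain ⟨d, rfl⟩ : ∃ d : Fin 66, d' = (d : ℕ) := ⟨⟨d', hd66'⟩, rfl⟩
    obtain ⟨rep, h0, ha0, hb, hv, hk⟩ := hinv
    obtain ⟨w1, w2, w3, w4⟩ := wOK_spec hw d
    match r, hg, hr with
    | 0, hg, hr =>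
      simp only [Bool.and_eq_true, Bool.not_eq_true'] at hg
      obtain ⟨hg1, hg2⟩ := hg
      obtain ⟨hai, hwi⟩ := hv i d hg1
      set c := stepId w i d with hc
      apply ih _ _ _ ?_ hr
      have hci : c ≠ i := by
        intro h; rw [h] at hg2; rw [hai] at hg2; exact absurd hg2 (by simp)
      have hc0 : c ≠ 0 := by
        intro h; rw [h] at hg2; rw [ha0] at hg2; exact absurd hg2 (by simp)
      have hne : ∀ j, Nat.testBit as j = true → j ≠ c := by
        intro j hj h; rw [h, hg2] at hj; exact absurd hj (by simp)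
      have hasmono : ∀ j, Nat.testBit as j = true → Nat.testBit (setBit as c) j = true := by
        intro j hj; rw [testBit_setBit, hj]; rfl
      have hvtmono : ∀ j, Nat.testBit vt j = true →
          Nat.testBit (setBit vt (16 * c + vN (revN d))) j = true := by
        intro j hj; rw [testBit_setBit, hj]; rfl
      refine ⟨Function.update rep c (rep i ++ [d]), ?_, ?_, ?_, ?_, ?_⟩
      · rw [Function.update_of_ne (Ne.symm hc0)]; exact h0
      · exact hasmono 0 ha0
      · intro e he; exact hvtmono _ (hb e he)
      · intro j e hje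
        rw [testBit_setBit, Bool.or_eq_true, decide_eq_true_eq] at hje
        rcases hje with hje | hje
        · obtain ⟨h1, h2⟩ := hv j e hje
          rw [Function.update_of_ne (hne j h1)]
          exact ⟨hasmono j h1, h2⟩
        · have hrd : vN (revN d) = vN ((rev d : Fin 66) : ℕ) := rfl
          rw [hrd] at hje
          obtain ⟨rfl, hve⟩ := key_inj' hje
          rw [Function.update_self]
          refine ⟨?_, ?_⟩
          · rw [testBit_setBit]; simp
          · have htl : T.tail (T.rev d) = T.tail e := tail_eq_of_vN hve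
            rw [← htl]
            exact isWalk_append hwi (isWalk_singleton (t := T) d)
      · intro j e hje
        rw [testBit_setBit, Bool.or_eq_true, decide_eq_true_eq] at hje
        rcases hje with hje | hje
        · obtain ⟨h1, h2, h3, h4, h5⟩ := hk j e hje
          rw [Function.update_of_ne (hne j h1), Function.update_of_ne (hne _ h2)]
          exact ⟨hasmono j h1, hasmono _ h2, hvtmono _ h3, hvtmono _ h4, h5⟩
        · obtain ⟨rfl, rfl⟩ := key_inj hje
          rw [← hc, Function.update_of_ne (Ne.symm hci), Function.update_self]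
          refine ⟨hasmono _ hai, ?_, hvtmono _ hg1, ?_, ?_⟩
          · rw [testBit_setBit]; simp
          · rw [testBit_setBit]; simp
          · exact Sim.refl (isWalk_append hwi (isWalk_singleton (t := T) d))
    | 1, hg, hr =>
      simp only [Bool.and_eq_true] at hg
      obtain ⟨hiK, hg⟩ := hg
      have hiK' : i < K := by simpa [Nat.blt] using hiK
      apply ih _ _ _ ?_ hr
      obtain ⟨h1, h2, h3, h4, h5⟩ := hk (stepId w i d) (rev d) hg
      have e1 : stepId w (stepId w i d) (revN d) = i := stepId_back hiK' w1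
      have e2 : revN ((rev d : Fin 66) : ℕ) = d := revN_revN d
      change Nat.testBit as (stepId w (stepId w i d) (revN d)) = true at h2
      change Nat.testBit vt (16 * stepId w (stepId w i d) (revN d) + vN (revN ((rev d : Fin 66) : ℕ))) = true at h4
      change T.Sim A (T.head (T.rev d)) (rep (stepId w i d) ++ [T.rev d])
        (rep (stepId w (stepId w i d) (revN d))) at h5
      rw [e1] at h2 h4 h5
      rw [e2] at h4
      refine inv_add h0 ha0 hb hv hk i d ⟨h2, h1, h4, h3, ?_⟩
      rw [head_rev] at h5
      -- rep i ++ [d] ~ rep c ++ [rev d] ++ [d] ~ rep c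
      have h6 := h5.symm.right [d] (isWalk_singleton (t := T) d)
      rw [List.append_assoc] at h6
      have h7 : T.Sim A (T.head d) (rep (stepId w i d) ++ ([T.rev d] ++ [d]))
          (rep (stepId w i d) ++ []) := by
        have hwc : T.IsWalk A (T.head d) (rep (stepId w i d)) := (hv _ (rev d) h3).2
        exact (sim_spur' (t := T) d).left _ hwc
      rw [List.append_nil] at h7
      exact h6.trans h7
    | 2, hg, hr =>
      simp only [Bool.and_eq_true] at hg
      obtain ⟨hg1, hg2⟩ := hg
      apply ih _ _ _ ?_ hr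
      obtain ⟨h1, h2, h3, h4, h5⟩ := hk i (T.rev (T.next (T.next d))) hg1
      obtain ⟨k1, k2, k3, k4, k5⟩ := hk _ (T.rev (T.next d)) hg2
      change Nat.testBit vt (16 * i + vN (revN (nextN (nextN d)))) = true at h3
      rw [vN_rev_prev] at h3
      have e1 : stepId w (stepId w i (revN (nextN (nextN d)))) (revN (nextN d)) = stepId w i d :=
        stepId_stepId w2
      change Nat.testBit as
        (stepId w (stepId w i (revN (nextN (nextN d)))) (revN (nextN d))) = true at k2
      change Nat.testBit vt (16 * stepId w (stepId w i (revN (nextN (nextN d)))) (revN (nextN d)) +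
        vN (revN (revN (nextN d)))) = true at k4
      change T.Sim A (T.head (T.rev (T.next d)))
        (rep (stepId w i (revN (nextN (nextN d)))) ++ [T.rev (T.next d)])
        (rep (stepId w (stepId w i (revN (nextN (nextN d)))) (revN (nextN d)))) at k5
      change T.Sim A (T.head (T.rev (T.next (T.next d)))) (rep i ++ [T.rev (T.next (T.next d))])
        (rep (stepId w i (revN (nextN (nextN d))))) at h5
      rw [e1] at k2 k4 k5
      rw [vN_rev_rev_next] at k4
      refine inv_add h0 ha0 hb hv hk i d ⟨h1, k2, h3, k4, ?_⟩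
      have hwi : T.IsWalk A (T.tail d) (rep i) := (hv i d h3).2
      have s1 := (sim_left (t := T) d).left (rep i) hwi
      rw [head_rev, tail_next] at k5 h5
      have hw2 : T.IsWalk (T.head (T.next d)) (T.head d) [T.rev (T.next d)] :=
        ⟨rfl, by
          show T.head (T.rev (T.next d)) = T.head d
          rw [head_rev, tail_next]⟩
      have s2 := h5.right [T.rev (T.next d)] hw2
      have s3 := s2.trans k5
      rw [List.append_assoc] at s3
      exact s1.trans s3
    | (r + 3), hg, hr =>
      simp only [Bool.and_eq_true] at hg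
      obtain ⟨hg1, hg2⟩ := hg
      apply ih _ _ _ ?_ hr
      obtain ⟨h1, h2, h3, h4, h5⟩ := hk i (T.next (T.rev d)) hg1
      obtain ⟨k1, k2, k3, k4, k5⟩ := hk _ (T.next (T.next (T.rev d))) hg2
      change Nat.testBit vt (16 * i + vN (nextN (revN d))) = true at h3
      rw [vN_next_rev] at h3
      have e1 : stepId w (stepId w i (nextN (revN d))) (nextN (nextN (revN d))) = stepId w i d :=
        stepId_stepId w3
      change Nat.testBit as
        (stepId w (stepId w i (nextN (revN d))) (nextN (nextN (revN d)))) = true at k2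
      change Nat.testBit vt (16 * stepId w (stepId w i (nextN (revN d))) (nextN (nextN (revN d))) +
        vN (revN (nextN (nextN (revN d))))) = true at k4
      change T.Sim A (T.head (T.next (T.next (T.rev d))))
        (rep (stepId w i (nextN (revN d))) ++ [T.next (T.next (T.rev d))])
        (rep (stepId w (stepId w i (nextN (revN d))) (nextN (nextN (revN d))))) at k5
      change T.Sim A (T.head (T.next (T.rev d))) (rep i ++ [T.next (T.rev d)])
        (rep (stepId w i (nextN (revN d)))) at h5
      rw [e1] at k2 k4 k5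
      rw [vN_rev_next_next_rev] at k4
      refine inv_add h0 ha0 hb hv hk i d ⟨h1, k2, h3, k4, ?_⟩
      have hwi : T.IsWalk A (T.tail d) (rep i) := (hv i d h3).2
      have s1 := (sim_right (t := T) d).left (rep i) hwi
      rw [head_next_next, tail_rev] at k5
      have hw2 : T.IsWalk (T.head (T.next (T.rev d))) (T.head d) [T.next (T.next (T.rev d))] :=
        ⟨T.tail_next _, by
          show T.head (T.next (T.next (T.rev d))) = T.head d
          rw [head_next_next, tail_rev]⟩
      have s2 := h5.right [T.next (T.next (T.rev d))] hw2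
      have s3 := s2.trans k5
      rw [List.append_assoc] at s3
      exact s1.trans s3

/-- trace of a walk -/
def trace (w : ℕ → ℕ) (p : List (Fin 66)) : ℕ := p.foldl (fun i d => stepId w i d) 0

theorem covNode_spec {w : ℕ → ℕ} {vt kn : ℕ} {tgt : ℕ → Bool} {i : ℕ}
    (h : covNode w vt kn tgt i = true) (d : Fin 66)
    (hd : Nat.testBit vt (16 * i + vN d) = true) :
    Nat.testBit kn (128 * i + d) = true ∧ tgt (stepId w i d) = true := by
  unfold covNode at h
  rw [List.all_eq_true] at h
  have := h d (List.mem_range.2 d.2)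
  rw [hd] at this
  simpa using this

theorem sameCycle_invariant {α β : Type*} {f : Equiv.Perm α} {g : α → β}
    (h : ∀ x, g (f x) = g x) {x y : α} (hxy : f.SameCycle x y) : g x = g y := by
  obtain ⟨i, rfl⟩ := hxy
  have key : ∀ i : ℤ, ∀ x, g ((f ^ i) x) = g x := by
    intro i
    induction i with
    | zero => intro x; simp
    | succ i ih =>
      intro x
      rw [zpow_add_one, Equiv.Perm.mul_apply, ih, h]
    | pred i ih =>
      intro x
      rw [zpow_sub_one, Equiv.Perm.mul_apply, ih, ← h (f⁻¹ x)]
      simp
  exact (key i x).symm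

theorem vN_rot : ∀ d : Fin 66, vN ((T.rot d : Fin 66) : ℕ) = vN d := by decide +kernel

theorem vN_eq_of_tail {d e : Fin 66} (h : T.tail d = T.tail e) : vN d = vN e :=
  sameCycle_invariant (f := T.rot) (g := fun x : Fin 66 => vN x) vN_rot (Quotient.exact h)

/-- The main consequence of a successful check. -/
theorem check_sound {d0 : Fin 66} {w : ℕ → ℕ} {cert S1 S2 : List ℕ}
    (h : check w (vN d0) cert S1 S2 = true) :
    ∃ rep : ℕ → List (Fin 66), ∀ (p : List (Fin 66)) (b : T.Vertex), T.IsWalk (T.tail d0) b p →
      p.length ≤ 3 → T.Sim (T.tail d0) b p (rep (trace w p)) := by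
  unfold check at h
  rw [Bool.and_eq_true] at h
  obtain ⟨hw, hrun⟩ := h
  have hinit : Inv (T.tail d0) w 1 (setBit 0 (vN d0)) 0 := by
    refine ⟨fun _ => [], rfl, by decide, ?_, ?_, ?_⟩
    · intro d hd
      rw [testBit_setBit, Nat.zero_testBit, Bool.false_or, decide_eq_true_eq]
      exact (vN_eq_of_tail hd).symm
    · intro i d hd
      rw [testBit_setBit, Nat.zero_testBit, Bool.false_or, decide_eq_true_eq] at hd
      have h1 := vN_lt d
      have h2 := vN_lt d0
      obtain rfl : i = 0 := by omega
      refine ⟨by decide, ?_⟩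
      exact tail_eq_of_vN (by omega)
    · intro i d hd
      rw [Nat.zero_testBit] at hd
      exact absurd hd (by simp)
  obtain ⟨as', vt', kn', ⟨rep, h0, ha0, hb, hv, hk⟩, hfin⟩ := run_sound hw cert _ _ _ hinit hrun
  unfold finTest at hfin
  simp only [Bool.and_eq_true, List.all_eq_true] at hfin
  obtain ⟨⟨hc0, hc1⟩, hc2⟩ := hfin
  refine ⟨rep, ?_⟩
  have main : ∀ (p : List (Fin 66)) (b : T.Vertex), T.IsWalk (T.tail d0) b p → p.length ≤ 3 →
      T.Sim (T.tail d0) b p (rep (trace w p)) ∧
      (∀ d : Fin 66, T.tail d = b → Nat.testBit vt' (16 * trace w p + vN d) = true) ∧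
      (p.length = 0 → trace w p = 0) ∧ (p.length = 1 → trace w p ∈ S1) ∧
      (p.length = 2 → trace w p ∈ S2) := by
    intro p
    induction p using List.reverseRecOn with
    | nil =>
      intro b hwalk _
      obtain rfl : T.tail d0 = b := hwalk
      refine ⟨?_, ?_, fun _ => rfl, ?_, ?_⟩
      · show T.Sim (T.tail d0) (T.tail d0) [] (rep 0)
        rw [h0]; exact Sim.refl rfl
      · intro d hd
        show Nat.testBit vt' (16 * 0 + vN d) = true
        rw [Nat.mul_zero, Nat.zero_add]
        exact hb d hd
      · intro h; simp at h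
      · intro h; simp at h
    | append_singleton q d ih =>
      intro b hwalk hlen
      rw [List.length_append, List.length_singleton] at hlen
      obtain ⟨v, hq, hd⟩ := isWalk_append_iff.1 hwalk
      obtain ⟨hdv, hdb⟩ : T.tail d = v ∧ T.head d = b := hd
      obtain ⟨ih1, ih2, ih3, ih4, ih5⟩ := ih v hq (by omega)
      have hbit := ih2 d hdv
      have htr : trace w (q ++ [d]) = stepId w (trace w q) d := by
        simp [trace, List.foldl_append]
      have hcov : Nat.testBit kn' (128 * trace w q + d) = true ∧
          (q.length = 0 → stepId w (trace w q) d ∈ S1) ∧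
          (q.length = 1 → stepId w (trace w q) d ∈ S2) := by
        have hl : q.length = 0 ∨ q.length = 1 ∨ q.length = 2 := by omega
        rcases hl with hl | hl | hl
        · rw [ih3 hl] at hbit ⊢
          obtain ⟨g1, g2⟩ := covNode_spec hc0 d hbit
          exact ⟨g1, fun _ => List.contains_iff_mem.1 g2, fun h => by omega⟩
        · obtain ⟨g1, g2⟩ := covNode_spec (hc1 _ (ih4 hl)) d hbit
          exact ⟨g1, fun h => by omega, fun _ => List.contains_iff_mem.1 g2⟩
        · obtain ⟨g1, g2⟩ := covNode_spec (hc2 _ (ih5 hl)) d hbit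
          exact ⟨g1, fun h => by omega, fun h => by omega⟩
      obtain ⟨hkn, hs1, hs2⟩ := hcov
      obtain ⟨k1, k2, k3, k4, k5⟩ := hk _ d hkn
      rw [htr]
      rw [hdb] at k5
      refine ⟨?_, ?_, ?_, ?_, ?_⟩
      · exact (ih1.right [d] (show T.IsWalk v b [d] from ⟨hdv, hdb⟩)).trans k5
      · intro e he
        have : vN e = vN (revN d) := by
          have h1 : T.tail e = T.tail (T.rev d) := by rw [he, ← hdb]; rfl
          exact vN_eq_of_tail h1
        rw [this]; exact k4
      · intro h; simp at h
      · intro h; apply hs1; simpa using h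
      · intro h; apply hs2; simpa using h
  intro p b hwalk hlen
  exact (main p b hwalk hlen).1

end Example

end Pool.Agent.Lib.MP_4a4360_co
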