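import Mathlib

/-!
Definitions for problem MP_4a4360_co: triangulations of closed oriented surfaces encoded as
combinatorial maps, paths and cycles, combinatorial free homotopy, contractible, null-homologous.
-/

namespace Pool.Agent.Lib.MP_4a4360_co

/-- A rooted triangulation of a compact connected oriented surface, encoded by its oriented edges
(darts). The surface is obtained by gluing finitely many oriented triangles along their sides: a
dart is a side of a triangle, oriented with the triangle on its left; `next d` is the following
side of the same triangle; `rev d` is the side to which `d` is glued, i.e. the same edge of the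
surface with the reverse orientation. -/
structure Triangulation where
  /-- the finite set of oriented edges -/
  Dart : Type
  [fintypeDart : Fintype Dart]
  [decEqDart : DecidableEq Dart]
  /-- reversal of an oriented edge -/
  rev : Equiv.Perm Dart
  /-- the next oriented edge along the boundary of the face on the left -/
  next : Equiv.Perm Dart
  /-- the distinguished oriented root edge -/
  root : Dart
  rev_rev : ∀ d, rev (rev d) = d
  rev_ne : ∀ d, rev d ≠ d
  /-- every face has degree exactly three -/
  face_degree : ∀ d, next d ≠ d ∧ next (next (next d)) = d
  /-- the surface is connected -/
  connected : ∀ d e, Relation.ReflTransGen (fun a b => b = rev a ∨ b = next a) d e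

attribute [instance] Triangulation.fintypeDart Triangulation.decEqDart

namespace Triangulation

variable (t : Triangulation)

/-- The permutation of the oriented edges which turns once around the tail: `rot d` has the same
tail as `d`, and precedes `d` around it (`rot d` is the reversal of the oriented edge which comes
before `d` on the face to the left of `d`). -/
def rot : Equiv.Perm t.Dart := t.next.symm.trans t.rev

/-- The vertices are the cycles of `rot`. -/
def Vertex : Type := Quotient (Equiv.Perm.SameCycle.setoid t.rot)

/-- The tail of an oriented edge. -/
def tail (d : t.Dart) : t.Vertex := Quotient.mk _ d

/-- The head of an oriented edge. -/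
def head (d : t.Dart) : t.Vertex := t.tail (t.rev d)

/-- `t.IsWalk a b p`: the list `p` of oriented edges leads from the vertex `a` to the vertex `b`,
the head of each edge being the tail of the following one (the empty list is allowed, when
`a = b`). -/
def IsWalk : t.Vertex → t.Vertex → List t.Dart → Prop
  | a, b, [] => a = b
  | a, b, d :: p => t.tail d = a ∧ IsWalk (t.head d) b p

/-- A path: a non-empty list of consecutive oriented edges. -/
def IsPath (p : List t.Dart) : Prop := p ≠ [] ∧ ∃ a b, t.IsWalk a b p

/-- A closed list of oriented edges, the empty list representing a constant curve. -/
def IsClosed (p : List t.Dart) : Prop := ∃ a, t.IsWalk a a p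

/-- A cycle: a path which ends where it starts. -/
def IsCycle (p : List t.Dart) : Prop := p ≠ [] ∧ t.IsClosed p

/-- A simple cycle: a cycle whose vertices `v₀, ..., v_{ℓ-1}` are pairwise distinct. -/
def IsSimpleCycle (p : List t.Dart) : Prop := t.IsCycle p ∧ (p.map t.tail).Nodup

/-- The elementary moves on closed lists of oriented edges: removing a back-and-forth `d, rev d`;
removing the boundary `d, next d, next (next d)` of a face; changing the starting point. -/
inductive Move : List t.Dart → List t.Dart → Prop
  | spur (p q : List t.Dart) (d : t.Dart) : Move (p ++ d :: t.rev d :: q) (p ++ q)
  | face (p q : List t.Dart) (d : t.Dart) :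
      Move (p ++ d :: t.next d :: t.next (t.next d) :: q) (p ++ q)
  | rotate (p q : List t.Dart) : Move (p ++ q) (q ++ p)

/-- Free homotopy of closed curves of the map: the equivalence relation generated by the
elementary moves between closed lists. -/
def FreelyHomotopic : List t.Dart → List t.Dart → Prop :=
  Relation.EqvGen (fun p q => t.IsClosed p ∧ t.IsClosed q ∧ t.Move p q)

/-- A cycle is contractible if it is freely homotopic to a constant curve. -/
def Contractible (p : List t.Dart) : Prop := t.FreelyHomotopic p []

/-- A cycle is separating (null-homologous) if its class in the first integral homology of the
surface is zero: the cellular `1`-chain it defines is the boundary of an integral `2`-chain, here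
given by a function `f` which is constant on each face; the coefficient of the oriented edge `d`
in a chain is counted with `d = - rev d`. -/
def NullHomologous (p : List t.Dart) : Prop :=
  ∃ f : t.Dart → ℤ, (∀ d, f (t.next d) = f d) ∧
    ∀ d, (p.count d : ℤ) - (p.count (t.rev d) : ℤ) = f d - f (t.rev d)

/-- An SNCC: a separating non-contractible cycle. -/
def IsSNCC (p : List t.Dart) : Prop :=
  t.IsCycle p ∧ t.NullHomologous p ∧ ¬ t.Contractible p

/-- A shortest SNCC: an SNCC of minimum length among all SNCCs. -/
def IsShortestSNCC (p : List t.Dart) : Prop :=
  t.IsSNCC p ∧ ∀ q, t.IsSNCC q → p.length ≤ q.length

end Triangulation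

end Pool.Agent.Lib.MP_4a4360_co
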