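import Pool.Agent.Lib.MP_4a4360_co.Invariants

/-!
An explicit triangulation with 66 oriented edges (22 triangles, 9 vertices, genus 2).
-/

namespace Pool.Agent.Lib.MP_4a4360_co

namespace Example

/-- number of the reversed dart -/
def revN (d : ℕ) : ℕ := (0x1aac3ee8f3646f84ad44f20ab2a7122854a5c4068bd7304c9c7b176dce9b7ef50b2405870026699902e0c6944a648860e09c8416300882428298 >>> (7 * d)) % 128

/-- number of the next dart on the face -/
def nextN (d : ℕ) : ℕ := if d % 3 = 2 then d - 2 else d + 1

/-- number of the previous dart on the face -/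
def prevN (d : ℕ) : ℕ := if d % 3 = 0 then d + 2 else d - 1

/-- number of the tail of the dart -/
def vN (d : ℕ) : ℕ := (0x186580500708611736678168637337075685765401411413433430200203231210 >>> (4 * d)) % 16

theorem revN_lt : ∀ d : Fin 66, revN d < 66 := by decide +kernel
theorem nextN_lt : ∀ d : Fin 66, nextN d < 66 := by decide +kernel
theorem prevN_lt : ∀ d : Fin 66, prevN d < 66 := by decide +kernel
theorem revN_revN : ∀ d : Fin 66, revN (revN d) = d := by decide +kernel
theorem nextN_prevN : ∀ d : Fin 66, nextN (prevN d) = d := by decide +kernel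
theorem prevN_nextN : ∀ d : Fin 66, prevN (nextN d) = d := by decide +kernel

/-- reversal -/
def rev : Equiv.Perm (Fin 66) where
  toFun d := ⟨revN d, revN_lt d⟩
  invFun d := ⟨revN d, revN_lt d⟩
  left_inv d := Fin.ext (revN_revN d)
  right_inv d := Fin.ext (revN_revN d)

/-- next side of the triangle -/
def next : Equiv.Perm (Fin 66) where
  toFun d := ⟨nextN d, nextN_lt d⟩
  invFun d := ⟨prevN d, prevN_lt d⟩
  left_inv d := Fin.ext (prevN_nextN d)
  right_inv d := Fin.ext (nextN_prevN d)

theorem rev_ne : ∀ d : Fin 66, rev d ≠ d := by decide +kernel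

theorem face_degree : ∀ d : Fin 66, next d ≠ d ∧ next (next (next d)) = d := by decide +kernel

/-- distance to the dart `0` -/
def rankN (d : ℕ) : ℕ := (0xe849d092988a424c72ad6c52d694258d62d2a31d0a5252a5886128c87318c7410a6208652986428440 >>> (5 * d)) % 32

theorem rank_zero : ∀ d : Fin 66, rankN d = 0 → d = 0 := by decide +kernel

theorem rank_step : ∀ d : Fin 66, rankN d = 0 ∨ rankN (rev d) + 1 = rankN d ∨
    rankN (next d) + 1 = rankN d := by decide +kernel

theorem connected_to_zero (r : ℕ) : ∀ d : Fin 66, rankN d = r →
    Relation.ReflTransGen (fun a b => b = rev a ∨ b = next a) d 0 := by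
  induction r with
  | zero =>
    intro d hd
    rw [rank_zero d hd]
  | succ r ih =>
    intro d hd
    rcases rank_step d with h | h | h
    · omega
    · exact Relation.ReflTransGen.head (Or.inl rfl) (ih _ (by omega))
    · exact Relation.ReflTransGen.head (Or.inr rfl) (ih _ (by omega))

theorem connected_from_zero (r : ℕ) : ∀ d : Fin 66, rankN d = r →
    Relation.ReflTransGen (fun a b => b = rev a ∨ b = next a) 0 d := by
  induction r with
  | zero =>
    intro d hd
    rw [rank_zero d hd]
  | succ r ih =>
    intro d hd
    rcases rank_step d with h | h | h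
    · omega
    · refine Relation.ReflTransGen.tail (ih (rev d) (by omega)) (Or.inl ?_)
      exact (Fin.ext (revN_revN d)).symm
    · refine Relation.ReflTransGen.tail (Relation.ReflTransGen.tail (ih (next d) (by omega))
        (Or.inr rfl)) (Or.inr ?_)
      exact (face_degree d).2.symm

/-- The triangulation. -/
abbrev T : Triangulation where
  Dart := Fin 66
  rev := rev
  next := next
  root := 0
  rev_rev d := Fin.ext (revN_revN d)
  rev_ne := rev_ne
  face_degree := face_degree
  connected d e := (connected_to_zero _ d rfl).trans (connected_from_zero _ e rfl)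

end Example

end Pool.Agent.Lib.MP_4a4360_co
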