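import Pool.Agent.Lib.MP_4a4360_co.Certificates

/-!
Every null-homologous cycle of length at most six of the example is contractible, and the example
contains a shortest separating non-contractible cycle which starts with a doubled loop.
-/

namespace Pool.Agent.Lib.MP_4a4360_co

namespace Example

open Triangulation

theorem revPath_length (p : List (Fin 66)) : (T.revPath p).length = p.length := by
  simp [revPath]

instance : Fact (Nat.Prime K) := ⟨by unfold K; norm_num⟩

theorem two_ne : (2 : ZMod K) ≠ 0 := by unfold K; decide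
theorem three_ne : (3 : ZMod K) ≠ 0 := by unfold K; decide

theorem cast_trace (w : ℕ → ℕ) (p : List (Fin 66)) :
    ((trace w p : ℕ) : ZMod K) = (p.map (fun d : Fin 66 => ((w d : ℕ) : ZMod K))).sum := by
  induction p using List.reverseRecOn with
  | nil => simp [trace]
  | append_singleton q d ih =>
    have htr : trace w (q ++ [d]) = stepId w (trace w q) d := by
      simp [trace, List.foldl_append]
    rw [htr, List.map_append, List.sum_append, ← ih]
    simp [stepId, ZMod.natCast_mod]

theorem trace_lt (w : ℕ → ℕ) (p : List (Fin 66)) : trace w p < K := by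
  induction p using List.reverseRecOn with
  | nil => exact (by decide : (0 : ℕ) < K)
  | append_singleton q d ih =>
    have htr : trace w (q ++ [d]) = stepId w (trace w q) d := by
      simp [trace, List.foldl_append]
    rw [htr]
    exact Nat.mod_lt _ (by decide)

theorem trace_eq_of_cast {w : ℕ → ℕ} {p q : List (Fin 66)}
    (h : ((trace w p : ℕ) : ZMod K) = ((trace w q : ℕ) : ZMod K)) : trace w p = trace w q := by
  rw [ZMod.natCast_eq_natCast_iff'] at h
  rwa [Nat.mod_eq_of_lt (trace_lt w p), Nat.mod_eq_of_lt (trace_lt w q)] at h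

/-- A cocycle given by a table vanishes on null-homologous lists. -/
theorem sum_zero {w : ℕ → ℕ} (hw : wOK w = true) {p : List (Fin 66)}
    (hp : T.NullHomologous p) :
    (p.map (fun d : Fin 66 => ((w d : ℕ) : ZMod K))).sum = 0 := by
  have hcast : ∀ m : ℕ, m % K = 0 → ((m : ℕ) : ZMod K) = 0 := fun m hm =>
    (ZMod.natCast_eq_zero_iff _ _).2 (Nat.dvd_of_mod_eq_zero hm)
  refine sum_eq_zero_of_nullHomologous (t := T) ?_ ?_
    (fun d : Fin 66 => ((w d : ℕ) : ZMod K)) ?_ ?_ hp
  · intro x hx
    have : (2 : ZMod K) * x = 0 := by linear_combination hx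
    exact (mul_eq_zero.1 this).resolve_left two_ne
  · intro x hx
    have : (3 : ZMod K) * x = 0 := by linear_combination hx
    exact (mul_eq_zero.1 this).resolve_left three_ne
  · intro d
    obtain ⟨w1, -, -, -⟩ := wOK_spec hw d
    have := hcast _ w1
    push_cast at this
    show ((w (revN d) : ℕ) : ZMod K) = - ((w d : ℕ) : ZMod K)
    linear_combination this
  · intro d
    obtain ⟨-, -, -, w4⟩ := wOK_spec hw d
    have := hcast _ w4
    push_cast at this
    exact this

theorem contractible_of_check {d0 : Fin 66} {w : ℕ → ℕ} {cert S1 S2 : List ℕ}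
    (h : check w (vN d0) cert S1 S2 = true) {p : List (Fin 66)}
    (hp : T.IsWalk (T.tail d0) (T.tail d0) p) (hlen : p.length ≤ 6)
    (hnull : T.NullHomologous p) : T.Contractible p := by
  obtain ⟨rep, hrep⟩ := check_sound h
  have hw : wOK w = true := by
    unfold check at h
    rw [Bool.and_eq_true] at h
    exact h.1
  have hsplit : p = p.take 3 ++ p.drop 3 := (List.take_append_drop 3 p).symm
  rw [hsplit] at hp hnull ⊢
  obtain ⟨v, h1, h2⟩ := isWalk_append_iff.1 hp
  have hl1 : (p.take 3).length ≤ 3 := by simp
  have hl2 : (p.drop 3).length ≤ 3 := by simp; omega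
  have s1 := hrep _ _ h1 hl1
  have s2 := hrep _ _ (isWalk_revPath h2) (by rw [revPath_length]; exact hl2)
  have htr : trace w (p.take 3) = trace w (T.revPath (p.drop 3)) := by
    apply trace_eq_of_cast
    rw [cast_trace, cast_trace]
    have hz := sum_zero hw hnull
    rw [List.map_append, List.sum_append] at hz
    have hrev : ((T.revPath (p.drop 3)).map (fun d : Fin 66 => ((w d : ℕ) : ZMod K))).sum
        = - ((p.drop 3).map (fun d : Fin 66 => ((w d : ℕ) : ZMod K))).sum := by
      rw [revPath, List.map_reverse, List.sum_reverse, List.map_map]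
      have : ∀ q : List (Fin 66), (q.map ((fun d : Fin 66 => ((w d : ℕ) : ZMod K)) ∘ T.rev)).sum
          = - (q.map (fun d : Fin 66 => ((w d : ℕ) : ZMod K))).sum := by
        intro q
        induction q with
        | nil => simp
        | cons d q ih =>
          simp only [List.map_cons, List.sum_cons, Function.comp] at ih ⊢
          rw [ih]
          obtain ⟨w1, -, -, -⟩ := wOK_spec hw d
          have h3 : (((w d + w (revN d) : ℕ)) : ZMod K) = 0 :=
            (ZMod.natCast_eq_zero_iff _ _).2 (Nat.dvd_of_mod_eq_zero w1)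
          push_cast at h3
          have h4 : ((w ((T.rev d : Fin 66) : ℕ) : ℕ) : ZMod K) = - ((w d : ℕ) : ZMod K) := by
            show ((w (revN d) : ℕ) : ZMod K) = - ((w d : ℕ) : ZMod K)
            linear_combination h3
          rw [h4]; ring
      exact this _
    rw [hrev]
    linear_combination hz
  rw [htr] at s1
  exact contractible_of_sim h2 (s1.trans s2.symm)

/-- Every null-homologous cycle of length at most six is contractible. -/
theorem contractible_of_length_le {p : List (Fin 66)} (hp : T.IsCycle p) (hlen : p.length ≤ 6)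
    (hnull : T.NullHomologous p) : T.Contractible p := by
  obtain ⟨hne, A, hA⟩ := hp
  obtain ⟨d, rfl⟩ : ∃ d : Fin 66, T.tail d = A := by
    cases p with
    | nil => exact absurd rfl hne
    | cons d p => exact ⟨d, hA.1⟩
  have hlt := vN_lt d
  have key : ∀ {d0 : Fin 66} {w : ℕ → ℕ} {cert S1 S2 : List ℕ},
      check w (vN d0) cert S1 S2 = true → vN d = vN d0 → T.Contractible p := by
    intro d0 w cert S1 S2 hc hd
    have ht : T.tail d = T.tail d0 := tail_eq_of_vN hd
    rw [ht] at hA
    exact contractible_of_check hc hA hlen hnull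
  have e0 : vN ((0 : Fin 66) : ℕ) = 0 := by decide +kernel
  have e1 : vN ((1 : Fin 66) : ℕ) = 1 := by decide +kernel
  have e2 : vN ((2 : Fin 66) : ℕ) = 2 := by decide +kernel
  have e3 : vN ((4 : Fin 66) : ℕ) = 3 := by decide +kernel
  have e4 : vN ((14 : Fin 66) : ℕ) = 4 := by decide +kernel
  have e5 : vN ((27 : Fin 66) : ℕ) = 5 := by decide +kernel
  have e6 : vN ((28 : Fin 66) : ℕ) = 6 := by decide +kernel
  have e7 : vN ((29 : Fin 66) : ℕ) = 7 := by decide +kernel
  have e8 : vN ((31 : Fin 66) : ℕ) = 8 := by decide +kernel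
  generalize hv : vN ((d : Fin 66) : ℕ) = v at hlt key
  interval_cases v
  · exact key check0 e0.symm
  · exact key check1 e1.symm
  · exact key check2 e2.symm
  · exact key check3 e3.symm
  · exact key check4 e4.symm
  · exact key check5 e5.symm
  · exact key check6 e6.symm
  · exact key check7 e7.symm
  · exact key check8 e8.symm

/-- the loop -/
def γ : List (Fin 66) := [9]

/-- the rest of the cycle -/
def C' : List (Fin 66) := [0, 21, 3, 15, 6]

/-- the shortest separating non-contractible cycle -/
def C : List (Fin 66) := [9, 9, 0, 21, 3, 15, 6]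

theorem walk_of_vN (p : List (Fin 66)) : ∀ a : Fin 66, ∀ b : Fin 66,
    (List.IsChain (fun x y : Fin 66 => vN (revN x) = vN y) (a :: p)) →
    (a :: p).getLast (by simp) = b → T.IsWalk (T.tail a) (T.head b) (a :: p) := by
  induction p with
  | nil =>
    intro a b _ hb
    obtain rfl : a = b := by simpa using hb
    exact ⟨rfl, rfl⟩
  | cons c p ih =>
    intro a b hch hb
    rw [List.isChain_cons_cons] at hch
    refine ⟨rfl, ?_⟩
    have h1 : T.head a = T.tail c := by
      have : T.tail (T.rev a) = T.tail c := tail_eq_of_vN hch.1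
      exact this
    rw [h1]
    exact ih c b hch.2 (by simpa using hb)

theorem isClosed_C : T.IsClosed C := by
  refine ⟨T.tail (9 : Fin 66), ?_⟩
  have h := walk_of_vN [9, 0, 21, 3, 15, 6] 9 6 (by decide +kernel) rfl
  have h2 : T.head (6 : Fin 66) = T.tail (9 : Fin 66) :=
    tail_eq_of_vN (d := rev 6) (e := 9) (by decide +kernel)
  rw [h2] at h
  exact h

/-- coefficients of the 2-chain -/
def fN (d : ℕ) : ℕ := (0x15555555aaaaaa >>> (2 * d)) % 4

/-- labels in the dihedral group of order six -/
def lab (d : Fin 66) : DihedralGroup 3 :=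
  match (0x2c488050028a00904120920000280000a2ca44800088008450 >>> (3 * (d : ℕ))) % 8 with
  | 0 => DihedralGroup.r 0
  | 1 => DihedralGroup.r 1
  | 2 => DihedralGroup.r 2
  | 4 => DihedralGroup.sr 0
  | 5 => DihedralGroup.sr 1
  | _ => DihedralGroup.sr 2

theorem lab_rev : ∀ d : Fin 66, lab d * lab (rev d) = 1 := by decide +kernel
theorem lab_face : ∀ d : Fin 66, lab d * lab (next d) * lab (next (next d)) = 1 := by
  decide +kernel
theorem lab_C : (C.map lab).prod ≠ 1 := by decide +kernel

theorem fN_next : ∀ d : Fin 66, fN (nextN d) = fN d := by decide +kernel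
theorem fN_count : ∀ d : Fin 66, ((C.count d : ℕ) : ℤ) - ((C.count (rev d) : ℕ) : ℤ)
    = (fN d : ℤ) - (fN (revN d) : ℤ) := by decide +kernel

theorem nullHomologous_C : T.NullHomologous C :=
  ⟨fun d : Fin 66 => (fN d : ℤ), fun d => congrArg (fun n : ℕ => (n : ℤ)) (fN_next d), fN_count⟩

theorem isSNCC_C : T.IsSNCC C :=
  ⟨⟨by decide, isClosed_C⟩, nullHomologous_C,
    not_contractible_of_label (t := T) lab lab_rev lab_face lab_C⟩

theorem isShortestSNCC_C : T.IsShortestSNCC C := by
  refine ⟨isSNCC_C, fun q hq => ?_⟩
  by_contra hlt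
  have hlen : q.length ≤ 6 := by
    have : C.length = 7 := rfl
    omega
  exact hq.2.2 (contractible_of_length_le hq.1 hlen hq.2.1)

theorem isSimpleCycle_γ : T.IsSimpleCycle γ := by
  refine ⟨⟨by decide, T.tail (9 : Fin 66), rfl, ?_⟩, ?_⟩
  · exact tail_eq_of_vN (d := rev 9) (e := 9) (by decide +kernel)
  · simp [γ]

theorem isPath_C' : T.IsPath C' :=
  ⟨by decide, _, _, walk_of_vN [21, 3, 15, 6] 0 6 (by decide +kernel) rfl⟩

end Example

end Pool.Agent.Lib.MP_4a4360_co
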