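import Pool.Agent.Lib.MP_4a4360_co.Defs

/-!
Basic facts on walks and combinatorial homotopy in a triangulation.
-/

namespace Pool.Agent.Lib.MP_4a4360_co

namespace Triangulation

variable (t : Triangulation)

theorem head_rev (d : t.Dart) : t.head (t.rev d) = t.tail d := by
  unfold head; rw [t.rev_rev]

theorem tail_rev (d : t.Dart) : t.tail (t.rev d) = t.head d := rfl

theorem tail_rot (d : t.Dart) : t.tail (t.rot d) = t.tail d := by
  apply Quotient.sound
  show Equiv.Perm.SameCycle t.rot (t.rot d) d
  exact (Equiv.Perm.sameCycle_apply_left).2 (Equiv.Perm.SameCycle.refl _ _)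

theorem tail_next (d : t.Dart) : t.tail (t.next d) = t.head d := by
  have h := t.tail_rot (t.next d)
  have h2 : t.rot (t.next d) = t.rev d := by simp [rot]
  rw [h2] at h
  exact h.symm

theorem next3 (d : t.Dart) : t.next (t.next (t.next d)) = d := (t.face_degree d).2

theorem head_next_next (d : t.Dart) : t.head (t.next (t.next d)) = t.tail d := by
  rw [← tail_next, t.next3]

variable {t}

theorem isWalk_append {a b c : t.Vertex} {p q : List t.Dart} (hp : t.IsWalk a b p)
    (hq : t.IsWalk b c q) : t.IsWalk a c (p ++ q) := by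
  induction p generalizing a with
  | nil => obtain rfl : a = b := hp; simpa using hq
  | cons d p ih => exact ⟨hp.1, ih hp.2⟩

theorem isWalk_append_iff {a c : t.Vertex} {p q : List t.Dart} :
    t.IsWalk a c (p ++ q) ↔ ∃ b, t.IsWalk a b p ∧ t.IsWalk b c q := by
  constructor
  · intro h
    induction p generalizing a with
    | nil => exact ⟨a, rfl, by simpa using h⟩
    | cons d p ih =>
      obtain ⟨b, h1, h2⟩ := ih h.2
      exact ⟨b, ⟨h.1, h1⟩, h2⟩
  · rintro ⟨b, h1, h2⟩
    exact isWalk_append h1 h2

theorem isWalk_end_unique {a b b' : t.Vertex} {p : List t.Dart} (h : t.IsWalk a b p)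
    (h' : t.IsWalk a b' p) : b = b' := by
  induction p generalizing a with
  | nil => exact (show a = b from h).symm.trans h'
  | cons d p ih => exact ih h.2 h'.2

theorem isWalk_singleton (d : t.Dart) : t.IsWalk (t.tail d) (t.head d) [d] := ⟨rfl, rfl⟩

/-- the reverse of a list of oriented edges -/
def revPath (t : Triangulation) (p : List t.Dart) : List t.Dart := (p.map t.rev).reverse

theorem isWalk_revPath {a b : t.Vertex} {p : List t.Dart} (h : t.IsWalk a b p) :
    t.IsWalk b a (t.revPath p) := by
  induction p generalizing a with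
  | nil => exact (show a = b from h).symm
  | cons d p ih =>
    have h1 := ih h.2
    simp only [revPath, List.map_cons, List.reverse_cons]
    refine isWalk_append h1 ?_
    refine ⟨rfl, ?_⟩
    show t.head (t.rev d) = a
    rw [head_rev]; exact h.1

/-- `p` and `q` are walks from `a` to `b` which may be exchanged inside closed lists, up to free
homotopy. -/
def Sim (t : Triangulation) (a b : t.Vertex) (p q : List t.Dart) : Prop :=
  t.IsWalk a b p ∧ t.IsWalk a b q ∧ ∀ (x y : List t.Dart) (c : t.Vertex),
    t.IsWalk c a x → t.IsWalk b c y → t.FreelyHomotopic (x ++ p ++ y) (x ++ q ++ y)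

theorem Sim.refl {a b : t.Vertex} {p : List t.Dart} (h : t.IsWalk a b p) : t.Sim a b p p :=
  ⟨h, h, fun _ _ _ _ _ => Relation.EqvGen.refl _⟩

theorem Sim.symm {a b : t.Vertex} {p q : List t.Dart} (h : t.Sim a b p q) : t.Sim a b q p :=
  ⟨h.2.1, h.1, fun x y c hx hy => Relation.EqvGen.symm _ _ (h.2.2 x y c hx hy)⟩

theorem Sim.trans {a b : t.Vertex} {p q r : List t.Dart} (h : t.Sim a b p q)
    (h' : t.Sim a b q r) : t.Sim a b p r :=
  ⟨h.1, h'.2.1, fun x y c hx hy =>
    Relation.EqvGen.trans _ _ _ (h.2.2 x y c hx hy) (h'.2.2 x y c hx hy)⟩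

theorem Sim.context {a b a' b' : t.Vertex} {p q x y : List t.Dart} (h : t.Sim a b p q)
    (hx : t.IsWalk a' a x) (hy : t.IsWalk b b' y) : t.Sim a' b' (x ++ p ++ y) (x ++ q ++ y) := by
  refine ⟨isWalk_append (isWalk_append hx h.1) hy, isWalk_append (isWalk_append hx h.2.1) hy, ?_⟩
  intro x' y' c hx' hy'
  have := h.2.2 (x' ++ x) (y ++ y') c (isWalk_append hx' hx) (isWalk_append hy hy')
  simpa [List.append_assoc] using this

theorem Sim.left {a a' b : t.Vertex} {p q : List t.Dart} (x : List t.Dart) (h : t.Sim a b p q)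
    (hx : t.IsWalk a' a x) : t.Sim a' b (x ++ p) (x ++ q) := by
  have := h.context hx (y := []) rfl
  simpa using this

theorem Sim.right {a b b' : t.Vertex} {p q : List t.Dart} (y : List t.Dart) (h : t.Sim a b p q)
    (hy : t.IsWalk b b' y) : t.Sim a b' (p ++ y) (q ++ y) := by
  have := h.context (x := []) rfl hy
  simpa using this

theorem sim_spur (d : t.Dart) : t.Sim (t.tail d) (t.tail d) [d, t.rev d] [] := by
  have hw : t.IsWalk (t.tail d) (t.tail d) [d, t.rev d] := ⟨rfl, rfl, by
    show t.head (t.rev d) = t.tail d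
    exact t.head_rev d⟩
  refine ⟨hw, rfl, ?_⟩
  intro x y c hx hy
  refine Relation.EqvGen.rel _ _ ⟨⟨c, ?_⟩, ⟨c, ?_⟩, ?_⟩
  · exact isWalk_append (isWalk_append hx hw) hy
  · simpa using isWalk_append hx hy
  · have := Move.spur (t := t) x y d
    simpa using this

theorem sim_face (d : t.Dart) :
    t.Sim (t.tail d) (t.tail d) [d, t.next d, t.next (t.next d)] [] := by
  have hw : t.IsWalk (t.tail d) (t.tail d) [d, t.next d, t.next (t.next d)] :=
    ⟨rfl, t.tail_next d, t.tail_next _, t.head_next_next d⟩
  refine ⟨hw, rfl, ?_⟩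
  intro x y c hx hy
  refine Relation.EqvGen.rel _ _ ⟨⟨c, ?_⟩, ⟨c, ?_⟩, ?_⟩
  · exact isWalk_append (isWalk_append hx hw) hy
  · simpa using isWalk_append hx hy
  · have := Move.face (t := t) x y d
    simpa using this

theorem sim_spur' (d : t.Dart) : t.Sim (t.head d) (t.head d) [t.rev d, d] [] := by
  have := sim_spur (t := t) (t.rev d)
  rw [t.rev_rev] at this
  exact this

/-- `d` is homotopic to the two other sides of the triangle on its right. -/
theorem sim_right (d : t.Dart) :
    t.Sim (t.tail d) (t.head d) [d] [t.next (t.rev d), t.next (t.next (t.rev d))] := by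
  have hw : t.IsWalk (t.tail d) (t.head d) [t.next (t.rev d), t.next (t.next (t.rev d))] := by
    refine ⟨?_, t.tail_next _, ?_⟩
    · rw [t.tail_next, t.head_rev]
    · show t.head (t.next (t.next (t.rev d))) = t.head d
      rw [t.head_next_next]; rfl
  have h1 : t.Sim (t.tail d) (t.head d)
      ([d, t.rev d] ++ [t.next (t.rev d), t.next (t.next (t.rev d))])
      ([] ++ [t.next (t.rev d), t.next (t.next (t.rev d))]) := (sim_spur d).right _ hw
  have h2 : t.Sim (t.tail d) (t.head d)
      ([d] ++ [t.rev d, t.next (t.rev d), t.next (t.next (t.rev d))]) ([d] ++ []) :=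
    (sim_face (t.rev d)).left [d] (isWalk_singleton d)
  exact (h2.symm).trans h1

/-- `d` is homotopic to the two other sides of the triangle on its left. -/
theorem sim_left (d : t.Dart) :
    t.Sim (t.tail d) (t.head d) [d] [t.rev (t.next (t.next d)), t.rev (t.next d)] := by
  set n := t.next d with hn
  set p := t.next (t.next d) with hp
  have htn : t.tail n = t.head d := t.tail_next d
  have htp : t.tail p = t.head n := t.tail_next n
  have hhp : t.head p = t.tail d := t.head_next_next d
  have hwn : t.IsWalk (t.head n) (t.head d) [t.rev n] := ⟨rfl, by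
    show t.head (t.rev n) = t.head d
    rw [t.head_rev]; exact htn⟩
  have hwp : t.IsWalk (t.tail d) (t.head n) [t.rev p] := ⟨by rw [t.tail_rev]; exact hhp, by
    show t.head (t.rev p) = t.head n
    rw [t.head_rev]; exact htp⟩
  have hdn : t.IsWalk (t.tail d) (t.head n) [d, n] := ⟨rfl, htn, rfl⟩
  -- [rev p, rev n] ~ [d, n, p, rev p, rev n] ~ [d, n, rev n] ~ [d]
  have h1 : t.Sim (t.tail d) (t.head d) ([d, n, p] ++ [t.rev p, t.rev n])
      ([] ++ [t.rev p, t.rev n]) := (sim_face d).right _ (isWalk_append hwp hwn)
  have h2 : t.Sim (t.tail d) (t.head d) ([d, n] ++ [p, t.rev p] ++ [t.rev n])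
      ([d, n] ++ [] ++ [t.rev n]) := by
    have := sim_spur (t := t) p
    rw [htp] at this
    exact this.context hdn hwn
  have h3 : t.Sim (t.tail d) (t.head d) ([d] ++ [n, t.rev n]) ([d] ++ []) := by
    have := sim_spur (t := t) n
    rw [htn] at this
    exact this.left [d] (isWalk_singleton d)
  exact (h3.symm).trans ((h2.symm).trans h1)

theorem sim_revPath {a b : t.Vertex} {p : List t.Dart} (h : t.IsWalk a b p) :
    t.Sim b b (t.revPath p ++ p) [] := by
  induction p generalizing a with
  | nil => exact Sim.refl rfl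
  | cons d p ih =>
    have h1 := ih h.2
    have hr := isWalk_revPath h.2
    have : t.revPath (d :: p) ++ d :: p = t.revPath p ++ [t.rev d, d] ++ p := by
      simp [revPath]
    rw [this]
    have h2 : t.Sim b b (t.revPath p ++ [t.rev d, d] ++ p) (t.revPath p ++ [] ++ p) :=
      (sim_spur' d).context hr h.2
    rw [List.append_nil] at h2
    exact h2.trans h1

/-- A closed list which is the concatenation of two walks, the first one being homotopic to the
reverse of the second one, is contractible. -/
theorem contractible_of_sim {a b : t.Vertex} {p q : List t.Dart} (hq : t.IsWalk b a q)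
    (h : t.Sim a b p (t.revPath q)) : t.Contractible (p ++ q) := by
  have h1 : t.Sim a a (p ++ q) (t.revPath q ++ q) := h.right q hq
  have h2 := h1.trans (sim_revPath hq)
  have h3 := h2.2.2 [] [] a rfl rfl
  show t.FreelyHomotopic (p ++ q) []
  simpa using h3

end Triangulation

end Pool.Agent.Lib.MP_4a4360_co
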