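import Pool.Agent.Lib.MP_4a4360_co.Homotopy

/-!
Invariants of closed walks: cocycles with values in `ZMod K` vanish on null-homologous lists;
labels in a group (with trivial product around each face) detect non-contractible lists.
-/

namespace Pool.Agent.Lib.MP_4a4360_co

namespace Triangulation

variable {t : Triangulation}

theorem sum_map_eq_sum_count {M : Type*} [AddCommMonoid M] (w : t.Dart → M)
    (p : List t.Dart) : (p.map w).sum = ∑ d, p.count d • w d := by
  induction p with
  | nil => simp
  | cons a p ih =>
    rw [List.map_cons, List.sum_cons, ih]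
    simp only [List.count_cons, add_smul, Finset.sum_add_distrib]
    rw [add_comm]
    congr 1
    rw [Finset.sum_eq_single a]
    · simp
    · intro b _ hb
      simp [Ne.symm hb]
    · intro h; exact absurd (Finset.mem_univ _) h

/-- A cocycle with values in `ZMod K` (`K` prime to `6`) vanishes on null-homologous lists. -/
theorem sum_eq_zero_of_nullHomologous {K : ℕ} (h2 : ∀ x : ZMod K, x + x = 0 → x = 0)
    (h3 : ∀ x : ZMod K, x + x + x = 0 → x = 0) (w : t.Dart → ZMod K)
    (hrev : ∀ d, w (t.rev d) = - w d)
    (hface : ∀ d, w d + w (t.next d) + w (t.next (t.next d)) = 0)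
    {p : List t.Dart} (hp : t.NullHomologous p) : (p.map w).sum = 0 := by
  obtain ⟨f, hf, hpf⟩ := hp
  rw [sum_map_eq_sum_count]
  set S := ∑ d, p.count d • w d with hS
  set F := ∑ d, (f d : ZMod K) * w d with hF
  have hcast : ∀ d, ((p.count d : ℕ) : ZMod K) - ((p.count (t.rev d) : ℕ) : ZMod K)
      = (f d : ZMod K) - (f (t.rev d) : ZMod K) := by
    intro d
    have := congrArg (fun z : ℤ => (z : ZMod K)) (hpf d)
    push_cast at this
    exact this
  -- F = 0
  have hF0 : F = 0 := by
    apply h3
    have e1 : ∑ d, (f d : ZMod K) * w (t.next d) = F := by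
      rw [hF, ← Equiv.sum_comp t.next (fun d => (f d : ZMod K) * w d)]
      exact Finset.sum_congr rfl fun d _ => by rw [hf d]
    have e2 : ∑ d, (f d : ZMod K) * w (t.next (t.next d)) = F := by
      rw [← e1, ← Equiv.sum_comp t.next (fun d => (f d : ZMod K) * w (t.next d))]
      exact Finset.sum_congr rfl fun d _ => by rw [hf d]
    calc F + F + F = ∑ d, (f d : ZMod K) * w d + ∑ d, (f d : ZMod K) * w (t.next d)
          + ∑ d, (f d : ZMod K) * w (t.next (t.next d)) := by rw [e1, e2]
      _ = ∑ d, (f d : ZMod K) * (w d + w (t.next d) + w (t.next (t.next d))) := by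
          rw [← Finset.sum_add_distrib, ← Finset.sum_add_distrib]
          exact Finset.sum_congr rfl fun d _ => by ring
      _ = 0 := by simp [hface]
  -- S + S = F + F
  have hS' : S = ∑ d, ((p.count d : ℕ) : ZMod K) * w d := by
    rw [hS]; exact Finset.sum_congr rfl fun d _ => by rw [nsmul_eq_mul]
  have hSr : ∑ d, ((p.count (t.rev d) : ℕ) : ZMod K) * w d = - S := by
    rw [hS', ← Equiv.sum_comp t.rev (fun d => ((p.count (t.rev d) : ℕ) : ZMod K) * w d),
      ← Finset.sum_neg_distrib]
    exact Finset.sum_congr rfl fun d _ => by rw [t.rev_rev, hrev]; ring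
  have hFr : ∑ d, (f (t.rev d) : ZMod K) * w d = - F := by
    rw [hF, ← Equiv.sum_comp t.rev (fun d => (f (t.rev d) : ZMod K) * w d),
      ← Finset.sum_neg_distrib]
    exact Finset.sum_congr rfl fun d _ => by rw [t.rev_rev, hrev]; ring
  apply h2
  calc S + S = ∑ d, ((p.count d : ℕ) : ZMod K) * w d
        - ∑ d, ((p.count (t.rev d) : ℕ) : ZMod K) * w d := by rw [hSr, ← hS']; ring
    _ = ∑ d, (f d : ZMod K) * w d - ∑ d, (f (t.rev d) : ZMod K) * w d := by
        rw [← Finset.sum_sub_distrib, ← Finset.sum_sub_distrib]
        exact Finset.sum_congr rfl fun d _ => by rw [← sub_mul, ← sub_mul, hcast d]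
    _ = 0 := by rw [hFr, ← hF, hF0]; ring

/-- The product of the labels is, up to conjugation, invariant under free homotopy. -/
theorem isConj_of_freelyHomotopic {Q : Type*} [Group Q] (l : t.Dart → Q)
    (hrev : ∀ d, l d * l (t.rev d) = 1)
    (hface : ∀ d, l d * l (t.next d) * l (t.next (t.next d)) = 1)
    {p q : List t.Dart} (h : t.FreelyHomotopic p q) :
    IsConj (p.map l).prod (q.map l).prod := by
  induction h with
  | rel p q h =>
    obtain ⟨-, -, h⟩ := h
    cases h with
    | spur p q d =>
      have : ((p ++ d :: t.rev d :: q).map l).prod = ((p ++ q).map l).prod := by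
        simp only [List.map_append, List.map_cons, List.prod_append, List.prod_cons]
        rw [← mul_assoc (l d), hrev, one_mul]
      rw [this]
    | face p q d =>
      have : ((p ++ d :: t.next d :: t.next (t.next d) :: q).map l).prod
          = ((p ++ q).map l).prod := by
        simp only [List.map_append, List.map_cons, List.prod_append, List.prod_cons]
        rw [← mul_assoc (l (t.next d)), ← mul_assoc (l d), ← mul_assoc (l d), hface, one_mul]
      rw [this]
    | rotate p q =>
      simp only [List.map_append, List.prod_append]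
      rw [isConj_iff]
      exact ⟨(q.map l).prod, by group⟩
  | refl p => exact IsConj.refl _
  | symm p q _ ih => exact ih.symm
  | trans p q r _ _ ih1 ih2 => exact ih1.trans ih2

theorem not_contractible_of_label {Q : Type*} [Group Q] (l : t.Dart → Q)
    (hrev : ∀ d, l d * l (t.rev d) = 1)
    (hface : ∀ d, l d * l (t.next d) * l (t.next (t.next d)) = 1)
    {p : List t.Dart} (h : (p.map l).prod ≠ 1) : ¬ t.Contractible p := by
  intro hc
  have := isConj_of_freelyHomotopic l hrev hface hc
  simp only [List.map_nil, List.prod_nil] at this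
  exact h (isConj_one_left.1 this)

end Triangulation

end Pool.Agent.Lib.MP_4a4360_co
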